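import Pool.Agent.Q85.Cor.Zeta

/-!
# Negative long-range correlations of the gaps between zeta zeros (under RH)

Assume the Riemann hypothesis; `δ_n` are the normalised gaps of the problem, of mean value one, and
`C_j(N)` is the mean value over `n ≤ N` of `(δ_n - 1)(δ_{n+j} - 1)`, the autocovariance of the gaps at
lag `j`; `C_0(N)` is their variance.

1. For every `r ≥ 1` and all large `N` the number `C_0 + 2 ∑_{1 ≤ j < r} (1 - j/r) C_j` lies between
   `c (1 + log r) / r` and `C (1 + log r) / r`.  So the variance of the gaps is, up to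
   `O((1 + log r) / r)`, minus twice the Cesàro sum of their correlations: it is determined by the
   correlations of distinct gaps, and these cannot vanish asymptotically.
2. For every `J` there is `J'` such that for all large `N` some lag `J ≤ j ≤ J'` has
   `C_j(N) ≤ -c / j^2`: at arbitrarily large lags the gaps are negatively correlated, and the size of
   the correlations is at least the size `1 / (2 π^2 j^2)` predicted by random matrix theory, up to a
   constant factor.

The proof uses the bounds of helper31 for the variance of sums of consecutive gaps.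
-/

set_option autoImplicit false

open Filter

namespace Pool.Agent.Results.MP_21f43f_nt.GapCorrelations

/-- multiplicity of `s` as a zero of the Riemann zeta function (order of vanishing at `s`) -/
noncomputable def zmult (s : ℂ) : ℕ := analyticOrderNatAt riemannZeta s

/-- the number of nontrivial zeros of `ζ` with ordinate in `(0, t]`, with multiplicity -/
noncomputable def NZ (t : ℝ) : ℕ :=
  ∑ᶠ s ∈ {s : ℂ | riemannZeta s = 0 ∧ 0 < s.re ∧ s.re < 1 ∧ 0 < s.im ∧ s.im ≤ t}, zmult s

/-- for `n ≥ 1`: the `n`-th positive ordinate `γ n` of a nontrivial zero of `ζ`, the ordinates being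
listed in nondecreasing order and repeated according to multiplicity -/
noncomputable def γ (n : ℕ) : ℝ := sInf {t : ℝ | n ≤ NZ t}

/-- the normalised ordinates `γ̃_n = γ_n log γ_n / (2π)` -/
noncomputable def γt (n : ℕ) : ℝ := 1 / (2 * Real.pi) * γ n * Real.log (γ n)

/-- the normalised gaps `δ_n = γ̃_{n+1} - γ̃_n` -/
noncomputable def δ (n : ℕ) : ℝ := γt (n + 1) - γt n

/-- the autocovariance of the gaps at lag `j`: the mean value over `n ≤ N` of
`(δ_n - 1) (δ_{n+j} - 1)`; for `j = 0` this is the variance of the gaps -/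
noncomputable def autocov (j N : ℕ) : ℝ :=
  (1 / N : ℝ) * ∑ n ∈ Finset.Icc 1 N, (δ n - 1) * (δ (n + j) - 1)

lemma δ_eq (n : ℕ) : δ n - 1 = Q85.Cor.dc n := by
  have h4 : ∀ m : ℕ, γt m = SG.ord m * Real.log (SG.ord m) / (2 * Real.pi) := by
    intro m
    have : γ m = SG.ord m := rfl
    unfold γt
    rw [this]
    ring
  unfold δ Q85.Cor.dc Q173.GM.dt
  rw [h4, h4]

lemma autocov_eq (j N : ℕ) : autocov j N = Q85.Cor.cov Q85.Cor.dc j N := by
  unfold autocov Q85.Cor.cov
  simp only [δ_eq]

/-- **The autocovariances of the gaps.** -/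
theorem result (RH : RiemannHypothesis) : ∃ c C : ℝ, 0 < c ∧ 0 < C ∧
    (∀ r : ℕ, 1 ≤ r → ∀ᶠ N : ℕ in atTop,
      c * (1 + Real.log r) / r ≤
        autocov 0 N + 2 * ∑ j ∈ Finset.Ico 1 r, (1 - j / r : ℝ) * autocov j N ∧
      autocov 0 N + 2 * ∑ j ∈ Finset.Ico 1 r, (1 - j / r : ℝ) * autocov j N ≤
        C * (1 + Real.log r) / r) ∧
    ∀ J : ℕ, 1 ≤ J → ∃ J' : ℕ, J ≤ J' ∧ ∀ᶠ N : ℕ in atTop, ∃ j : ℕ, J ≤ j ∧ j ≤ J' ∧
      autocov j N ≤ -c / (j : ℝ) ^ 2 := by
  obtain ⟨c, C, hc, hC, hW⟩ := Q85.Cor.W_bounds RH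
  obtain ⟨A, hA⟩ := Q85.Cor.mom4 RH
  have e : ∀ r N : ℕ, 1 ≤ r →
      autocov 0 N + 2 * ∑ j ∈ Finset.Ico 1 r, (1 - j / r : ℝ) * autocov j N =
        Q85.Cor.W Q85.Cor.dc r N / r := by
    intro r N hr
    have hr0 : (0 : ℝ) < r := by exact_mod_cast hr
    unfold Q85.Cor.W
    simp only [autocov_eq]
    rw [add_div, mul_div_cancel_left₀ _ hr0.ne', mul_div_assoc, Finset.sum_div]
    congr 2
    refine Finset.sum_congr rfl fun j _ => ?_
    field_simp
  refine ⟨c / 8, C, by positivity, hC, fun r hr => ?_, fun J hJ => ?_⟩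
  · have hr0 : (0 : ℝ) < r := by exact_mod_cast hr
    have hlog : 0 ≤ Real.log r := Real.log_nonneg (by exact_mod_cast hr)
    filter_upwards [hW r hr] with N hN
    rw [e r N hr]
    constructor
    · apply div_le_div_of_nonneg_right _ hr0.le
      nlinarith [hN.1]
    · exact div_le_div_of_nonneg_right hN.2 hr0.le
  · obtain ⟨J', hJJ', h⟩ := Q85.Cor.neg_far (d := Q85.Cor.dc) hA hc hC hW J hJ
    refine ⟨J', hJJ', ?_⟩
    filter_upwards [h] with N hN
    obtain ⟨j, h1, h2, h3⟩ := hN
    exact ⟨j, h1, h2, by rw [autocov_eq]; exact h3⟩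

end Pool.Agent.Results.MP_21f43f_nt.GapCorrelations
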