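import Pool.Agent.Q173.GM.Trans

/-!
# Moments of the gaps between the zeta zeros (under RH)

Assume the Riemann hypothesis and let `δ_n` be the normalised gaps, of mean value one.  The
conjecture of the problem predicts the mean values `∫ s^k p(s) ds` of the powers `δ_n^k` (`1.18` for
`k = 2`) and of `log δ_n`.  We prove that for all large `N` the means of `δ_n^2`, `δ_n^3`, `δ_n^4`,
`δ_n^6` over `n ≤ N` are at least `1.052`, `1.144`, `1.268` and `1.6`, and that the geometric mean
of the `δ_n` is at most `0.97`.  So every limit distribution of the gaps has variance at least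
`0.052`, etc.; the trivial bounds, from the mean value one, are `1`, `1`, `1`, `1` and `1`.

Idea of the proof.  By Montgomery's theorem on the form factor in `[-1, 1]`, in the form of the
starting theorem `Pool.Agent.Y747.avg`, the mean value of `sin² (π δ) / (π² (1 - δ²)²)` is at most
`1/4 - 3/(8π²) + o(1) = 0.2120…`, less than the value `1/4` of this function at `δ = 1`.  By the
starting theorem `Pool.Agent.Y747.plus_ge` the mean value of `max (δ_n - 1) 0` is at least `0.1005`.
The moments follow by linear programming duality: `δ^k` is at least a constant minus a multiple of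
the first function plus multiples of `δ - 1` and of `max (δ - 1) 0`; these inequalities of one
variable are checked with Bernstein polynomials.
-/

set_option autoImplicit false

open Filter

namespace Pool.Agent.Results.MP_21f43f_nt.GapMoments

/-- multiplicity of `s` as a zero of the Riemann zeta function (order of vanishing at `s`) -/
noncomputable def zmult (s : ℂ) : ℕ := analyticOrderNatAt riemannZeta s

/-- the number of nontrivial zeros of `ζ` with ordinate in `(0, t]`, with multiplicity -/
noncomputable def NZ (t : ℝ) : ℕ :=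
  ∑ᶠ s ∈ {s : ℂ | riemannZeta s = 0 ∧ 0 < s.re ∧ s.re < 1 ∧ 0 < s.im ∧ s.im ≤ t}, zmult s

/-- for `n ≥ 1`: the `n`-th positive ordinate `γ n` of a nontrivial zero of `ζ`, the ordinates being
listed in nondecreasing order and repeated according to multiplicity -/
noncomputable def γ (n : ℕ) : ℝ := sInf {t : ℝ | n ≤ NZ t}

/-- the normalised ordinates `γ̃_n = γ_n log γ_n / (2π)` -/
noncomputable def γt (n : ℕ) : ℝ := 1 / (2 * Real.pi) * γ n * Real.log (γ n)

/-- the normalised gaps `δ_n = γ̃_{n+1} - γ̃_n` -/
noncomputable def δ (n : ℕ) : ℝ := γt (n + 1) - γt n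

lemma δ_eq (n : ℕ) : δ n = Q173.GM.dt n := by
  have h4 : ∀ m : ℕ, γt m = SG.ord m * Real.log (SG.ord m) / (2 * Real.pi) := by
    intro m
    have : γ m = SG.ord m := rfl
    unfold γt
    rw [this]
    ring
  unfold δ Q173.GM.dt
  rw [h4, h4]

/-- On the Riemann hypothesis, for all large `N`: the mean values over `n ≤ N` of the second, third,
fourth and sixth powers of the normalised gaps are at least `1.052`, `1.144`, `1.268` and `1.6`, and
the geometric mean of the first `N` gaps is at most `0.97`. -/
theorem result (RH : RiemannHypothesis) : ∀ᶠ N : ℕ in atTop,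
    1.052 ≤ (1 / N : ℝ) * ∑ n ∈ Finset.Icc 1 N, δ n ^ 2 ∧
    1.144 ≤ (1 / N : ℝ) * ∑ n ∈ Finset.Icc 1 N, δ n ^ 3 ∧
    1.268 ≤ (1 / N : ℝ) * ∑ n ∈ Finset.Icc 1 N, δ n ^ 4 ∧
    1.6 ≤ (1 / N : ℝ) * ∑ n ∈ Finset.Icc 1 N, δ n ^ 6 ∧
    ∏ n ∈ Finset.Icc 1 N, δ n ≤ 0.97 ^ N := by
  have key : ∀ {a b : ℝ} {N : ℕ}, 0 < N → a * N ≤ b → a ≤ (1 / N : ℝ) * b := by
    intro a b N hN h
    have hNpos : (0 : ℝ) < N := by exact_mod_cast hN
    rw [one_div, inv_mul_eq_div, le_div_iff₀ hNpos]
    exact h
  have h2 := Q173.GM.pow_transfer (b := 1.052) (by norm_num) (Q173.GM.mom2 RH)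
  have h3 := Q173.GM.pow_transfer (b := 1.144) (by norm_num) (Q173.GM.mom3 RH)
  have h4 := Q173.GM.pow_transfer (b := 1.268) (by norm_num) (Q173.GM.mom4 RH)
  have h6 := Q173.GM.pow_transfer (b := 1.6) (by norm_num) (Q173.GM.mom6 RH)
  simp only [δ_eq]
  filter_upwards [h2, h3, h4, h6, Q173.GM.geo RH, eventually_gt_atTop 0] with N h2 h3 h4 h6 hg hN
  refine ⟨key hN h2, key hN h3, key hN h4, key hN h6, ?_⟩
  have h7 : ∏ n ∈ Finset.Icc 1 N, Q173.GM.dt n ≤ ∏ n ∈ Finset.Icc 1 N, |Q173.GM.dt n| := by
    rw [← Finset.abs_prod]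
    exact le_abs_self _
  refine h7.trans (le_trans hg (le_of_eq ?_))
  norm_num

end Pool.Agent.Results.MP_21f43f_nt.GapMoments
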