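import Pool.Agent.Y749.AH.Main2

/-!
# The lattices that attract almost all spacings of the zeta zeros (under RH)

Assume RH.  Let `T → ∞`, or let `T` run through an arbitrary sequence tending to infinity (more generally,
take any nontrivial filter `l ≤ atTop`).  The Gaudin distribution has a density, so that the conjecture
implies that for no `s > 0` almost all the normalised gaps `δ_n`, `n ≤ N(T)`, are near the lattice
`s ℤ = {0, s, 2s, …}`.  We determine the possible exceptions: either there is no such `s`, or there is one
number `s₀ ≤ 1/2` such that the lattices with this property are exactly `(s₀ / m) ℤ`, `m = 1, 2, 3, …`.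
In particular, among the lattices that attract almost all the gaps there is a coarsest one, all the others are
refinements of it, and a lattice `s ℤ` with `s > 1/2` never attracts almost all the gaps.

The proof shows that the numbers `1 / s`, with `s` as above, are the positive elements of the group
of all `θ` such that almost all the normalised differences `x` of zeros in fixed windows satisfy
`|sin(π θ x)| < ε`, and that this group meets `(0, 2)` in the empty set, by Montgomery's theorem.
-/

open Filter

namespace Pool.Agent.Results.MP_21f43f_nt.LatticeStructure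

/-- multiplicity of `s` as a zero of the Riemann zeta function (order of vanishing at `s`) -/
noncomputable def zmult (s : ℂ) : ℕ := analyticOrderNatAt riemannZeta s

/-- the number of nontrivial zeros of `ζ` with ordinate in `(0, t]`, with multiplicity -/
noncomputable def NZ (t : ℝ) : ℕ :=
  ∑ᶠ s ∈ {s : ℂ | riemannZeta s = 0 ∧ 0 < s.re ∧ s.re < 1 ∧ 0 < s.im ∧ s.im ≤ t}, zmult s

/-- for `n ≥ 1`: the `n`-th positive ordinate `γ n` of a nontrivial zero of `ζ`, the ordinates being
listed in nondecreasing order and repeated according to multiplicity -/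
noncomputable def γ (n : ℕ) : ℝ := sInf {t : ℝ | n ≤ NZ t}

/-- the normalised gaps `δ_n = γ_{n+1} log γ_{n+1} / 2π - γ_n log γ_n / 2π` -/
noncomputable def δ (n : ℕ) : ℝ :=
  (γ (n + 1) * Real.log (γ (n + 1)) - γ n * Real.log (γ n)) / (2 * Real.pi)

/-- along the filter `l` of values of `T`, almost all the gaps `δ_n`, `n ≤ N(T)`, are near the
lattice `s ℤ` -/
def Attracts (l : Filter ℝ) (s : ℝ) : Prop := ∀ ε η : ℝ, 0 < ε → 0 < η → ∀ᶠ T in l,
  ({n : ℕ | 1 ≤ n ∧ n ≤ NZ T ∧ ∀ k : ℤ, ε ≤ |δ n - k * s|}.ncard : ℝ) ≤ η * NZ T

/-- **The structure of the lattices.** -/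
theorem result (hRH : RiemannHypothesis) (l : Filter ℝ) (hl : l ≤ atTop) (hne : l.NeBot) :
    (∀ s : ℝ, 0 < s → ¬ Attracts l s) ∨
    ∃ s₀ : ℝ, 0 < s₀ ∧ s₀ ≤ 1 / 2 ∧
      ∀ s : ℝ, 0 < s → (Attracts l s ↔ ∃ m : ℕ, 1 ≤ m ∧ s = s₀ / m) :=
  Pool.Agent.Y749.AH.M.lattices hRH hl

end Pool.Agent.Results.MP_21f43f_nt.LatticeStructure
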