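import Pool.Agent.Q85.Rig.Near3
import Pool.Agent.Y749.AH.Main

/-!
# The nearest-neighbour law of the zeta zeros is decided by lower bounds for non-adjacent pairs

Assume RH.  Let `p ≥ 0` be any probability density on `(0, ∞)` with an exponential moment
(`∫ exp (c s) p(s) ds < ∞` for some `c > 0`), for example the Gaudin density.  For `0 < a < b` let
`R(T; a, b)` be the number of pairs of zeros with ordinates `γ_m ≤ γ_n ≤ T`, `n ≥ m + 2` (so at
least one zero lies between them), with `(γ_n - γ_m) log T / 2π` in `[a, b]`.  Then the following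
are equivalent.

* (i) The nearest-neighbour spacings `δ_n` have the limiting density `p`, *and* Montgomery's pair
  correlation conjecture holds.
* (ii) `liminf R(T; a, b) / N(T) ≥ ∫_a^b (1 - (sin πu / πu)² - p(u)) du` for all `0 < a < b`.

So, the law of the *adjacent* gaps (with the exact constants: upper and lower bounds) and the pair
correlation follow from mere *lower* bounds for the *non-adjacent* pairs; nothing has to be known
about adjacent zeros, nor about multiplicities.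

Idea of the proof.  All pairs are at least as many as the non-adjacent ones, and `p` has an
exponentially small tail, so (ii) gives lower bounds for the number of all pairs in the windows
`[a, a + ℓ]` which are exponentially close to the conjectured value.  By the rigidity theorem
(a measure with a spectral gap which is exponentially small on one side vanishes) this implies the
pair correlation conjecture, and that almost all zeros are simple.  By subtraction we get the upper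
bound `∫_a^b p` for the proportion of the gaps in `[a, b]`.  There are `N(T)` gaps of mean value
`1`, few of them are large or small, and `∫ p = 1`: so the upper bounds are equalities.
-/

set_option autoImplicit false

open Filter Topology

namespace Pool.Agent.Results.MP_21f43f_nt.NonAdjacentPairs

/-- multiplicity of `s` as a zero of the Riemann zeta function (order of vanishing at `s`) -/
noncomputable def zmult (s : ℂ) : ℕ := analyticOrderNatAt riemannZeta s

/-- the number of nontrivial zeros of `ζ` with ordinate in `(0, t]`, with multiplicity -/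
noncomputable def NZ (t : ℝ) : ℕ :=
  ∑ᶠ s ∈ {s : ℂ | riemannZeta s = 0 ∧ 0 < s.re ∧ s.re < 1 ∧ 0 < s.im ∧ s.im ≤ t}, zmult s

/-- for `n ≥ 1`: the `n`-th positive ordinate `γ n` of a nontrivial zero of `ζ`, the ordinates being
listed in nondecreasing order and repeated according to multiplicity -/
noncomputable def γ (n : ℕ) : ℝ := sInf {t : ℝ | n ≤ NZ t}

/-- the normalised gaps `δ_n = γ_{n+1} log γ_{n+1} / 2π - γ_n log γ_n / 2π` -/
noncomputable def δ (n : ℕ) : ℝ :=
  (γ (n + 1) * Real.log (γ (n + 1)) - γ n * Real.log (γ n)) / (2 * Real.pi)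

/-- the difference of two ordinates up to `T`, in units of the mean gap `2π / log T` -/
noncomputable def x (T : ℝ) (n m : ℕ) : ℝ := (γ n - γ m) * Real.log T / (2 * Real.pi)

/-- Q1 with the density `p`: the proportion of `n ≤ N` with `δ_n ∈ (a, b]` tends to `∫_a^b p`, for
all `0 ≤ a < b`. -/
def NearestNeighbour (p : ℝ → ℝ) : Prop := ∀ a b : ℝ, 0 ≤ a → a < b →
  Tendsto (fun N : ℕ => ({n : ℕ | 1 ≤ n ∧ n ≤ N ∧ a < δ n ∧ δ n ≤ b}.ncard : ℝ) / N) atTop
    (𝓝 (∫ s in a..b, p s))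

/-- Montgomery's pair correlation conjecture -/
def PairCorrelation : Prop := ∀ a b : ℝ, 0 < a → a < b →
  Tendsto (fun T : ℝ => ({q : ℕ × ℕ | 1 ≤ q.2 ∧ q.2 < q.1 ∧ q.1 ≤ NZ T ∧ a ≤ x T q.1 q.2 ∧
    x T q.1 q.2 ≤ b}.ncard : ℝ) / NZ T) atTop
    (𝓝 (∫ u in a..b, (1 - (Real.sin (Real.pi * u) / (Real.pi * u)) ^ 2)))

/-- the lower bounds for the non-adjacent pairs -/
def NonAdjacentLower (p : ℝ → ℝ) : Prop := ∀ a b ε : ℝ, 0 < a → a < b → 0 < ε →
  ∀ᶠ T : ℝ in atTop,
    (∫ u in a..b, (1 - (Real.sin (Real.pi * u) / (Real.pi * u)) ^ 2 - p u)) - ε ≤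
      ({q : ℕ × ℕ | 1 ≤ q.2 ∧ q.2 + 2 ≤ q.1 ∧ q.1 ≤ NZ T ∧ a ≤ x T q.1 q.2 ∧
        x T q.1 q.2 ≤ b}.ncard : ℝ) / NZ T

open Pool.Agent.Y749.Rig Pool.Agent.Y749.AH Pool.Agent.Q85.Rig

lemma dj_eq (n : ℕ) : δ n = dj n := Pool.Agent.Y749.AH.M.d_eq n

lemma nonC_eq (T a b : ℝ) :
    {q : ℕ × ℕ | 1 ≤ q.2 ∧ q.2 + 2 ≤ q.1 ∧ q.1 ≤ NZ T ∧ a ≤ x T q.1 q.2 ∧
      x T q.1 q.2 ≤ b}.ncard = nonC T a b := by
  classical
  unfold nonC
  rw [← Set.ncard_coe_finset]
  congr 1
  ext q
  rw [Finset.mem_coe, Finset.mem_filter, Finset.mem_product]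
  unfold II
  rw [Finset.mem_Ioc, Finset.mem_Ioc]
  constructor
  · rintro ⟨h1, h2, h3, h4, h5⟩
    have h3' : q.1 ≤ SG.NZ T := h3
    exact ⟨⟨⟨by omega, h3'⟩, ⟨by omega, by omega⟩⟩, h2, h4, h5⟩
  · rintro ⟨⟨⟨h1, h2⟩, ⟨h3, h4⟩⟩, h5, h6, h7⟩
    exact ⟨h3, h5, h2, h6, h7⟩

lemma pair_eq (hRH : RiemannHypothesis) {T : ℝ} (hT : 10 ≤ T) {a : ℝ} (ha : 0 < a) (b : ℝ) :
    ({q : ℕ × ℕ | 1 ≤ q.2 ∧ q.2 < q.1 ∧ q.1 ≤ NZ T ∧ a ≤ x T q.1 q.2 ∧
      x T q.1 q.2 ≤ b}.ncard : ℝ) = (Mp T).real (Set.Icc a b) * nT T := by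
  rw [← Pool.Agent.Y749.AH.M.ncard_pairs hRH hT measurableSet_Icc]
  congr 2
  ext q
  constructor
  · rintro ⟨h1, h2, h3, h4, h5⟩
    have h3' : q.1 ≤ SG.NZ T := h3
    exact ⟨⟨by omega, h3'⟩, ⟨h1, by omega⟩, ⟨h4, h5⟩⟩
  · rintro ⟨⟨h1, h2⟩, ⟨h3, h4⟩, ⟨h5, h6⟩⟩
    refine ⟨h3, ?_, h2, h5, h6⟩
    by_contra hcon
    push Not at hcon
    have h7 := xx_nonneg (by linarith : 1 ≤ T) h1 hcon
    rw [xx_neg] at h7
    have h8 : a ≤ xx T q.1 q.2 := h5
    linarith

lemma gap_eq (N : ℕ) {a b : ℝ} (hab : a < b) :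
    ({n : ℕ | 1 ≤ n ∧ n ≤ N ∧ a < δ n ∧ δ n ≤ b}.ncard : ℝ) = (CN N b : ℝ) - CN N a := by
  classical
  have h1 : {n : ℕ | 1 ≤ n ∧ n ≤ N ∧ a < δ n ∧ δ n ≤ b} =
      ((((Finset.Ioc 0 N).filter (fun j => dj j ≤ b)) \
        ((Finset.Ioc 0 N).filter (fun j => dj j ≤ a)) : Finset ℕ) : Set ℕ) := by
    ext n
    rw [Finset.mem_coe, Finset.mem_sdiff, Finset.mem_filter, Finset.mem_filter, Finset.mem_Ioc]
    rw [Set.mem_setOf_eq, dj_eq]
    constructor
    · rintro ⟨h1, h2, h3, h4⟩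
      exact ⟨⟨⟨by omega, h2⟩, h4⟩, fun h => absurd h.2 (not_le.2 h3)⟩
    · rintro ⟨⟨⟨h1, h2⟩, h3⟩, h4⟩
      refine ⟨by omega, h2, ?_, h3⟩
      by_contra hcon
      push Not at hcon
      exact h4 ⟨⟨h1, h2⟩, hcon⟩
  have h2 : ((Finset.Ioc 0 N).filter (fun j => dj j ≤ a)) ⊆
      ((Finset.Ioc 0 N).filter (fun j => dj j ≤ b)) := by
    intro j hj
    rw [Finset.mem_filter] at hj ⊢
    exact ⟨hj.1, hj.2.trans hab.le⟩
  rw [h1, Set.ncard_coe_finset, Finset.card_sdiff_of_subset h2]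
  have h3 : CN N a ≤ CN N b := CN_mono N hab.le
  have h4 : ((Finset.Ioc 0 N).filter (fun j => dj j ≤ b)).card -
      ((Finset.Ioc 0 N).filter (fun j => dj j ≤ a)).card = CN N b - CN N a := rfl
  rw [h4, Nat.cast_sub h3]

lemma int_eq {p : ℝ → ℝ} (hp : MeasureTheory.IntegrableOn p (Set.Ioi 0)) {a b : ℝ} (ha : 0 < a)
    (hab : a < b) :
    ∫ u in a..b, (1 - (Real.sin (Real.pi * u) / (Real.pi * u)) ^ 2 - p u) =
      (∫ u in a..b, FF u) - ∫ u in a..b, p u :=
  intervalIntegral.integral_sub (FF_ii a b) (p_ii hp ha.le (by linarith))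

/-- **The equivalence.** -/
theorem result (hRH : RiemannHypothesis) (p : ℝ → ℝ) (hp0 : ∀ s, 0 ≤ p s)
    (hp1 : ∫ s in Set.Ioi 0, p s = 1) (c : ℝ) (hc : 0 < c)
    (hpc : MeasureTheory.IntegrableOn (fun s => Real.exp (c * s) * p s) (Set.Ioi 0)) :
    (NearestNeighbour p ∧ PairCorrelation) ↔ NonAdjacentLower p := by
  have hp := p_int hp0 hc hpc
  have hNpos : ∀ᶠ T in atTop, (0 : ℝ) < NZ T := by
    filter_upwards [NZ_top.eventually_ge_atTop 1] with T hT
    exact_mod_cast hT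
  have hNn2 : Tendsto (fun T => nT T / (SG.NZ T : ℝ)) atTop (𝓝 1) := by
    have := NZ_nT.inv₀ one_ne_zero
    rw [inv_one] at this
    refine this.congr fun T => ?_
    rw [inv_div]
  constructor
  · rintro ⟨h1, h2⟩ a b ε ha hab hε
    have h3 := near_conv hRH hp0 hp (fun a b ha hab => by
      refine (h1 a b ha hab).congr fun N => ?_
      rw [gap_eq N hab]) (fun a b ha hab => by
      refine (h2 a b ha hab).congr' ?_
      filter_upwards [eventually_ge_atTop 10] with T hT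
      rw [pair_eq hRH hT ha]
      rfl) ha hab hε
    filter_upwards [h3] with T hT
    rw [int_eq hp ha hab, nonC_eq]
    exact hT
  · intro H
    obtain ⟨h1, h2, h3⟩ := near_main hRH hp0 hp1 hc hpc le_rfl (fun a b ha hab ε hε => by
      filter_upwards [H a b ε ha hab hε, hNpos] with T hT hN
      rw [int_eq hp ha hab, nonC_eq, le_div_iff₀ hN] at hT
      exact hT)
    refine ⟨fun a b ha hab => ?_, fun a b ha hab => ?_⟩
    · refine (near_q1 hp h3 ha hab).congr fun N => ?_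
      rw [gap_eq N hab]
    · have h4 := (h1 a b ha hab).mul hNn2
      rw [mul_one] at h4
      refine h4.congr' ?_
      filter_upwards [eventually_ge_atTop 10] with T hT
      rw [pair_eq hRH hT ha, ← mul_div_assoc]
      rfl

end Pool.Agent.Results.MP_21f43f_nt.NonAdjacentPairs
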